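import Pool.Agent.H81.D3.Targets

/-! NST of `d3n_modules` (MP_ee74d2_an): one node of the chain. -/

set_option autoImplicit false

namespace Pool.Agent.H97.D3.NST

open MeasureTheory Set Filter Topology Pool.Agent.H83.G Pool.Agent.H81.D3
open Pool.Agent.H82.G4 (aw uk)
open Pool.Agent.H22.G4 (nv Ind)
open scoped ENNReal NNReal RealInnerProductSpace

theorem sR_sq (K : ℕ) : sR ((K : ℝ) ^ 2) = (K : ℝ)⁻¹ := by
  unfold sR
  rw [Real.sqrt_sq (Nat.cast_nonneg K)]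

/-- the exponential beats a power -/
theorem exp_beats (s C3 : ℝ) : ∃ C7 : ℝ, 1 ≤ C7 ∧ ∀ y : ℝ, C7 ≤ y →
    C3 * y ^ s < (2 : ℝ) ^ (y - 1) := by
  have hl : 0 < Real.log 2 := Real.log_pos (by norm_num)
  have h := isLittleO_rpow_exp_pos_mul_atTop s hl
  have hc : 0 < 1 / (2 * (|C3| + 1)) := by positivity
  have h1 := h.def hc
  obtain ⟨T, hT⟩ := eventually_atTop.mp h1
  refine ⟨max 1 T, le_max_left _ _, ?_⟩
  intro y hy
  have hy0 : 0 < y := lt_of_lt_of_le one_pos ((le_max_left _ _).trans hy)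
  have h2 := hT y ((le_max_right _ _).trans hy)
  rw [Real.norm_eq_abs, Real.norm_eq_abs, abs_of_pos (Real.exp_pos _),
    abs_of_nonneg (Real.rpow_nonneg hy0.le _)] at h2
  have e1 : Real.exp (Real.log 2 * y) = (2 : ℝ) ^ y := by
    rw [Real.rpow_def_of_pos (by norm_num)]
  rw [e1] at h2
  have e2 : (2 : ℝ) ^ (y - 1) = (2 : ℝ) ^ y / 2 := by
    rw [Real.rpow_sub (by norm_num), Real.rpow_one]
  rw [e2]
  have h3 : 0 < (2 : ℝ) ^ y := by positivity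
  have h4 : 0 ≤ y ^ s := Real.rpow_nonneg hy0.le _
  have h5 : C3 * y ^ s ≤ |C3| * (1 / (2 * (|C3| + 1)) * (2 : ℝ) ^ y) :=
    mul_le_mul (le_abs_self _) h2 h4 (abs_nonneg _)
  refine lt_of_le_of_lt h5 ?_
  have h6 : |C3| * (1 / (2 * (|C3| + 1)) * (2 : ℝ) ^ y) =
      (|C3| / (|C3| + 1)) * ((2 : ℝ) ^ y / 2) := by
    field_simp
  rw [h6]
  have h7 : |C3| / (|C3| + 1) < 1 := by
    rw [div_lt_one (by positivity)]
    linarith
  nlinarith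

/-- the bound of the multiplicity index -/
theorem index_lt {δ C3 C7 : ℝ} (hδ : 0 < δ) (K j : ℕ)
    (h7 : ∀ y : ℝ, C7 ≤ y → C3 * y ^ (4 / δ) < (2 : ℝ) ^ (y - 1)) (hK : C7 ≤ (K : ℝ) ^ δ)
    (hj : (2 : ℝ) ^ j ≤ C3 * (K : ℝ) ^ 4) : j < ⌊(K : ℝ) ^ δ⌋₊ := by
  by_contra hcon
  push Not at hcon
  have h1 := h7 _ hK
  have e1 : ((K : ℝ) ^ δ) ^ (4 / δ) = (K : ℝ) ^ 4 := by
    rw [← Real.rpow_mul (Nat.cast_nonneg K), mul_div_cancel₀ _ hδ.ne']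
    norm_cast
  rw [e1] at h1
  have h2 := Nat.lt_floor_add_one ((K : ℝ) ^ δ)
  have h3 : ((⌊(K : ℝ) ^ δ⌋₊ : ℕ) : ℝ) ≤ j := by exact_mod_cast hcon
  have h4 : (2 : ℝ) ^ ((K : ℝ) ^ δ - 1) ≤ (2 : ℝ) ^ (j : ℝ) :=
    Real.rpow_le_rpow_of_exponent_le (by norm_num) (by linarith)
  rw [Real.rpow_natCast] at h4
  linarith

/-- final algebra -/
theorem fin_alg {P C1 C5 K δ x c S H J : ℝ} (hP2 : 2 ≤ P) (hP4 : P ≤ 4) (hC1 : 1 ≤ C1)
    (hC5 : 0 ≤ C5) (hK : 1 ≤ K) (hδ : 0 < δ) (hx : 0 ≤ x) (hc : 0 ≤ c) (hS : 0 ≤ S)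
    (hH : 0 < H) (hJ : 1 ≤ J)
    (h : c * (H / (2 * (C1 * K ^ δ))) ^ P ≤ C5 * (K ^ 2) ^ (400 * δ) * (3 * J) ^ (P / 2 - 1) *
      (2 * x) ^ P * S * K ^ 4) :
    c * H ^ P ≤ (C5 * (2 * C1) ^ 4 * 48) * K ^ (804 * δ) * J ^ (P / 2 - 1) * x ^ P * S * K ^ 4 := by
  have hK0 : 0 < K := by linarith
  have hc1 : 0 < 2 * (C1 * K ^ δ) := by positivity
  have e1 : H ^ P = (2 * (C1 * K ^ δ)) ^ P * (H / (2 * (C1 * K ^ δ))) ^ P := by
    rw [← Real.mul_rpow hc1.le (by positivity)]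
    congr 1
    field_simp
  have e2 : (2 * (C1 * K ^ δ)) ^ P = (2 * C1) ^ P * K ^ (δ * P) := by
    rw [← mul_assoc, Real.mul_rpow (by positivity) (by positivity), ← Real.rpow_mul hK0.le]
  have e3 : (K ^ 2) ^ (400 * δ) = K ^ (800 * δ) := by
    rw [← Real.rpow_natCast K 2, ← Real.rpow_mul hK0.le]
    congr 1
    push_cast
    ring
  have h1 : (2 * C1) ^ P ≤ (2 * C1) ^ 4 := by
    rw [← Real.rpow_natCast (2 * C1) 4]
    exact Real.rpow_le_rpow_of_exponent_le (by linarith) (by push_cast; linarith)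
  have h2 : K ^ (δ * P) ≤ K ^ (4 * δ) :=
    Real.rpow_le_rpow_of_exponent_le hK (by nlinarith)
  have h3 : (3 * J) ^ (P / 2 - 1) ≤ 3 * J ^ (P / 2 - 1) := by
    rw [Real.mul_rpow (by norm_num) (by linarith)]
    refine mul_le_mul_of_nonneg_right ?_ (by positivity)
    calc (3 : ℝ) ^ (P / 2 - 1) ≤ (3 : ℝ) ^ (1 : ℝ) :=
          Real.rpow_le_rpow_of_exponent_le (by norm_num) (by linarith)
      _ = 3 := Real.rpow_one _
  have h4 : (2 * x) ^ P ≤ 16 * x ^ P := by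
    rw [Real.mul_rpow (by norm_num) hx]
    refine mul_le_mul_of_nonneg_right ?_ (by positivity)
    calc (2 : ℝ) ^ P ≤ (2 : ℝ) ^ (4 : ℝ) :=
          Real.rpow_le_rpow_of_exponent_le (by norm_num) hP4
      _ = 16 := by norm_num
  have e4 : K ^ (804 * δ) = K ^ (4 * δ) * K ^ (800 * δ) := by
    rw [← Real.rpow_add hK0]
    congr 1
    ring
  have hJ0 : 0 ≤ J := by linarith
  calc c * H ^ P = (2 * (C1 * K ^ δ)) ^ P * (c * (H / (2 * (C1 * K ^ δ))) ^ P) := by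
        rw [e1]; ring
    _ ≤ ((2 * C1) ^ P * K ^ (δ * P)) * (C5 * (K ^ 2) ^ (400 * δ) * (3 * J) ^ (P / 2 - 1) *
        (2 * x) ^ P * S * K ^ 4) := by
        rw [e2]
        exact mul_le_mul_of_nonneg_left h (by positivity)
    _ ≤ ((2 * C1) ^ 4 * K ^ (4 * δ)) * (C5 * K ^ (800 * δ) * (3 * J ^ (P / 2 - 1)) *
        (16 * x ^ P) * S * K ^ 4) := by
        rw [e3]
        gcongr
    _ = _ := by rw [e4]; ring

theorem pf_NST (hNSA : T_NSA) (hNFI : T_NFI) (hCLW : T_CLW) (hRDP : T_RDP) (hMSB : T_MSB)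
    (hTLS : T_TLS) (hPSX : T_PSX) : T_NST := by
  classical
  obtain ⟨Ca, hCa1, hNS⟩ := hNSA
  refine ⟨max Ca 804, le_max_of_le_left hCa1, ?_⟩
  intro L N₁ β δ M hL hβ hδ hδ1 hM
  obtain ⟨Ψ, ψ, hΨ⟩ := hPSX 2
  obtain ⟨N0a, hN0a⟩ := hNS L N₁ β Ψ ψ δ M hL hβ hΨ hδ hδ1 hM
  obtain ⟨N0b, hN0b⟩ := hMSB 2 δ hδ
  refine ⟨max (max N0a N0b) 5, ?_⟩
  intro N hN
  have hNa : N0a ≤ N := ((le_max_left _ _).trans (le_max_left _ _)).trans hN
  have hNb : N0b ≤ N := ((le_max_right _ _).trans (le_max_left _ _)).trans hN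
  have hN5 : 2 + 3 ≤ N := (le_max_right _ _).trans hN
  have hδ4 : δ ≤ 1 / 4 := by linarith
  obtain ⟨C1, hC1, hA⟩ := hN0a N hNa
  obtain ⟨C2, hC2, hB⟩ := hN0b N hNb
  obtain ⟨C3, hC3, hF, -⟩ := hNFI δ hδ hδ4
  obtain ⟨C4, hC4, hT⟩ := hTLS 2 L N β Ψ ψ δ (M + 1) hβ hΨ hδ hδ4 hN5
  obtain ⟨C5, hC5, hR5⟩ := hRDP 2 N β Ψ ψ δ 2 (by norm_num) hβ hΨ hδ hδ4 hN5 le_rfl
    (by norm_num)
  obtain ⟨C6, hC6, hR6⟩ := hRDP 2 N β Ψ ψ δ (7 / 2) (by norm_num) hβ hΨ hδ hδ4 hN5 (by norm_num)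
    (by norm_num)
  obtain ⟨C7, hC7, h7⟩ := exp_beats (4 / δ) C3
  -- the constant
  obtain ⟨C, hCdef⟩ : ∃ C : ℝ, C = C1 + C2 + 2 * C1 * C4 + C5 + C6 + C7 +
      (C5 + C6) * (2 * C1) ^ 4 * 48 := ⟨_, rfl⟩
  have hpos1 : 0 ≤ 2 * C1 * C4 := by positivity
  have hpos2 : 0 ≤ (C5 + C6) * (2 * C1) ^ 4 * 48 := by positivity
  have hCC1 : C1 ≤ C := by rw [hCdef]; linarith
  have hCC2 : C2 ≤ C := by rw [hCdef]; linarith
  have hCC4 : 2 * C1 * C4 ≤ C := by rw [hCdef]; linarith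
  have hCC5 : C5 ≤ C := by rw [hCdef]; linarith
  have hCC6 : C6 ≤ C := by rw [hCdef]; linarith
  have hCC7 : C7 ≤ C := by rw [hCdef]; linarith
  have hCCb : (C5 + C6) * (2 * C1) ^ 4 * 48 ≤ C := by rw [hCdef]; linarith
  have hC1' : 1 ≤ C := hC1.trans hCC1
  refine ⟨C, hC1', ?_⟩
  intro R A H K n G X V hR hCK hKR hA0 hH0 hAR hn hCls hSep hX hNar
  -- numbers
  have hKδ1 : 1 ≤ (K : ℝ) ^ δ := hC1'.trans hCK
  have hK1 : (1 : ℝ) ≤ K := by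
    rcases Nat.eq_zero_or_pos K with h | h
    · rw [h, Nat.cast_zero, Real.zero_rpow hδ.ne'] at hKδ1
      linarith
    · exact_mod_cast h
  have hK0 : (0 : ℝ) < K := by linarith
  have hKδK : (K : ℝ) ^ δ ≤ K := by
    calc (K : ℝ) ^ δ ≤ (K : ℝ) ^ (1 : ℝ) :=
          Real.rpow_le_rpow_of_exponent_le hK1 (by linarith)
      _ = K := Real.rpow_one _
  have hK2 : (1 : ℝ) ≤ (K : ℝ) ^ 2 := one_le_pow₀ hK1
  have hK2δ : (K : ℝ) ^ δ ≤ ((K : ℝ) ^ 2) ^ δ := by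
    refine Real.rpow_le_rpow hK0.le ?_ hδ.le
    nlinarith
  set q : ℝ := (K : ℝ) ^ (-50 : ℝ) * H with hq
  have hq0 : 0 < q := by rw [hq]; positivity
  set A' : ℝ := A * (R / (K : ℝ) ^ 2) with hA'
  have hA'0 : 0 < A' := by rw [hA']; positivity
  have hCls' : Cls L (1 / 4) ((K : ℝ) ^ 2) A' G :=
    hCLW L (1 / 4) R A K G (by norm_num) hK1 hKR hA0 hCls
  have hTC : TC G := hCls'.1
  have hsupp : ∀ ζ, G ζ ≠ 0 → ζ ∈ Rg 2 (1 / 4) ((K : ℝ) ^ 2)⁻¹ := hCls'.2.1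
  -- the planks near a point
  choose T hTcard hTmem using fun z : Z 2 => hF ((K : ℝ) ^ 2) z hK2
  simp only [sR_sq] at hTmem
  let Sz : Z 2 → ℕ → Finset (Pk 2) := fun z i => (T z).filter fun W =>
    2 ^ i * q ≤ al N β ((K : ℝ) ^ 2) δ G W ∧ al N β ((K : ℝ) ^ 2) δ G W < 2 ^ (i + 1) * q
  have hSz : ∀ z i W, W ∈ Sz z i ↔ W.1 ∈ Ks 2 (K : ℝ)⁻¹ ∧ near ((K : ℝ) ^ 2) δ W z ∧
      2 ^ i * q ≤ al N β ((K : ℝ) ^ 2) δ G W ∧
      al N β ((K : ℝ) ^ 2) δ G W < 2 ^ (i + 1) * q := by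
    intro z i W
    simp only [Sz, Finset.mem_filter, hTmem]
    tauto
  have hSzcard : ∀ z i, ((Sz z i).card : ℝ) ≤ C3 * (K : ℝ) ^ 4 := by
    intro z i
    have h1 : ((Sz z i).card : ℝ) ≤ (T z).card := by
      exact_mod_cast Finset.card_le_card (Finset.filter_subset _ _)
    refine (h1.trans (hTcard z)).trans (le_of_eq ?_)
    congr 1
    rw [show ((2 : ℝ)) = ((2 : ℕ) : ℝ) by norm_num, Real.rpow_natCast]
    ring
  let Y : ℕ → ℕ → Finset (Z 2) := fun i j => X.filter fun z =>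
    H ≤ C1 * (K : ℝ) ^ δ * ‖∑ W ∈ Sz z i, Fp β ψ ((K : ℝ) ^ 2) δ G W z‖ ∧
    2 ^ j ≤ (Sz z i).card ∧ (Sz z i).card ≤ 2 ^ (j + 1) ∧
    ((Sz z i).card : ℝ) ≤ C1 * n * (K : ℝ) ^ (1 + Ca * δ) ∧
    ∀ W ∈ Sz z i, ∃ j', ∃ η ∈ Cz (V z j'), ‖ctr (K : ℝ)⁻¹ W.1 - η‖ ≤ 3 / K
  let Wf : ℕ → ℕ → Finset (Pk 2) := fun i j => (Y i j).biUnion fun z => Sz z i
  have hYX : ∀ i j, Y i j ⊆ X := fun i j => Finset.filter_subset _ _
  have hY : ∀ i j z, z ∈ Y i j →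
      H ≤ C1 * (K : ℝ) ^ δ * ‖∑ W ∈ Sz z i, Fp β ψ ((K : ℝ) ^ 2) δ G W z‖ ∧
      2 ^ j ≤ (Sz z i).card ∧ (Sz z i).card ≤ 2 ^ (j + 1) ∧
      ((Sz z i).card : ℝ) ≤ C1 * n * (K : ℝ) ^ (1 + Ca * δ) ∧
      ∀ W ∈ Sz z i, ∃ j', ∃ η ∈ Cz (V z j'), ‖ctr (K : ℝ)⁻¹ W.1 - η‖ ≤ 3 / K :=
    fun i j z hz => (Finset.mem_filter.mp hz).2
  have hWf : ∀ i j W, W ∈ Wf i j → W.1 ∈ Ks 2 (K : ℝ)⁻¹ ∧
      2 ^ i * q ≤ al N β ((K : ℝ) ^ 2) δ G W ∧
      al N β ((K : ℝ) ^ 2) δ G W < 2 ^ (i + 1) * q := by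
    intro i j W hW
    obtain ⟨z, -, hz⟩ := Finset.mem_biUnion.mp hW
    obtain ⟨h1, -, h2, h3⟩ := (hSz z i W).1 hz
    exact ⟨h1, h2, h3⟩
  have hfil : ∀ i j z, z ∈ Y i j →
      (Wf i j).filter (fun W => near ((K : ℝ) ^ 2) δ W z) = Sz z i := by
    intro i j z hz
    ext W
    rw [Finset.mem_filter]
    constructor
    · rintro ⟨h1, h2⟩
      obtain ⟨h3, h4, h5⟩ := hWf i j W h1
      exact (hSz z i W).2 ⟨h3, h2, h4, h5⟩
    · intro h1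
      exact ⟨Finset.mem_biUnion.mpr ⟨z, hz, h1⟩, ((hSz z i W).1 h1).2.1⟩
  refine ⟨Y, Wf, ?_, ?_⟩
  · -- every point is in some class
    intro z hz
    obtain ⟨i, hi, S, hS, hSs, hSc, hSr⟩ := hA R A H K n G z (V z) hR (hCC1.trans hCK) hKR hA0 hH0
      hAR hn hCls (hX z hz) (hNar z hz)
    have hSeq : S = Sz z i := by
      ext W
      rw [hS, hSz]
    rw [hSeq] at hSs hSc hSr
    have hcard : (Sz z i).card ≠ 0 := by
      intro h0
      rw [Finset.card_eq_zero] at h0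
      rw [h0, Finset.sum_empty, norm_zero, mul_zero] at hSs
      linarith
    refine ⟨i, hi, Nat.log 2 (Sz z i).card, ?_, ?_⟩
    · refine index_lt hδ K _ h7 (hCC7.trans hCK) ?_
      refine le_trans ?_ (hSzcard z i)
      exact_mod_cast Nat.pow_log_le_self 2 hcard
    · refine Finset.mem_filter.mpr ⟨hz, hSs, Nat.pow_log_le_self 2 hcard, ?_, hSc, hSr⟩
      exact (Nat.lt_pow_succ_log_self (by norm_num) _).le
  intro i j
  refine ⟨hYX i j, ?_, ?_, ?_⟩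
  · intro W hW
    exact ⟨(hWf i j W hW).1, (hWf i j W hW).2.1⟩
  · intro z hz
    obtain ⟨h1, h2, h3, h4, h5⟩ := hY i j z hz
    have hf := hfil i j z hz
    refine ⟨?_, ?_, ?_, ?_⟩
    · rw [hf]; exact h2
    · rw [hf]; exact h3
    · have h6 : (2 : ℝ) ^ j ≤ ((Sz z i).card : ℝ) := by exact_mod_cast h2
      refine (h6.trans h4).trans ?_
      have hn0 : (0 : ℝ) ≤ n := Nat.cast_nonneg n
      have h8 : (K : ℝ) ^ (1 + Ca * δ) ≤ (K : ℝ) ^ (1 + max Ca 804 * δ) := by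
        refine Real.rpow_le_rpow_of_exponent_le hK1 ?_
        have := mul_le_mul_of_nonneg_right (le_max_left Ca (804 : ℝ)) hδ.le
        linarith
      exact mul_le_mul (mul_le_mul_of_nonneg_right hCC1 hn0) h8 (by positivity) (by positivity)
    · intro W hW hnear
      refine h5 W ?_
      rw [← hf]
      exact Finset.mem_filter.mpr ⟨hW, hnear⟩
  · -- refined decoupling
    intro P hP
    set H' : ℝ := H / (2 * (C1 * (K : ℝ) ^ δ)) with hH'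
    have hc10 : 0 < C1 * (K : ℝ) ^ δ := by positivity
    have hH'0 : 0 < H' := by rw [hH']; positivity
    have hM1 : (0 : ℝ) < 3 * 2 ^ j := by positivity
    -- smallness of the far planks
    have hsmall : C4 * A' * ((K : ℝ) ^ 2) ^ (-(M + 1)) ≤ H' := by
      have h1 : A' ≤ (K : ℝ) ^ M * H := by
        have h2 : A' ≤ A * R := by
          rw [hA']
          refine mul_le_mul_of_nonneg_left ?_ hA0.le
          rw [div_le_iff₀ (by positivity)]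
          nlinarith
        exact h2.trans hAR
      have e1 : ((K : ℝ) ^ 2) ^ (-(M + 1)) = (K : ℝ) ^ (-2 * M - 2) := by
        rw [← Real.rpow_natCast (K : ℝ) 2, ← Real.rpow_mul hK0.le]
        congr 1
        push_cast
        ring
      have h3 : C4 * A' * ((K : ℝ) ^ 2) ^ (-(M + 1)) ≤
          C4 * ((K : ℝ) ^ M * H) * (K : ℝ) ^ (-2 * M - 2) := by
        rw [e1]
        gcongr
      refine h3.trans ?_
      have e2 : C4 * ((K : ℝ) ^ M * H) * (K : ℝ) ^ (-2 * M - 2) =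
          C4 * H * (K : ℝ) ^ (-M - 2) := by
        have : (K : ℝ) ^ (-M - 2) = (K : ℝ) ^ M * (K : ℝ) ^ (-2 * M - 2) := by
          rw [← Real.rpow_add hK0]
          congr 1
          ring
        rw [this]
        ring
      rw [e2, hH', le_div_iff₀ (by positivity)]
      have h4 : (K : ℝ) ^ (-M - 2) * ((K : ℝ) ^ δ * K) ≤ 1 := by
        have e3 : (K : ℝ) ^ (-M - 2) * ((K : ℝ) ^ δ * K) = (K : ℝ) ^ (-M - 1 + δ) := by
          have : (K : ℝ) ^ δ * K = (K : ℝ) ^ (δ + 1) := by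
            rw [Real.rpow_add hK0, Real.rpow_one]
          rw [this, ← Real.rpow_add hK0]
          congr 1
          ring
        rw [e3]
        exact Real.rpow_le_one_of_one_le_of_nonpos hK1 (by linarith)
      have h5 : 2 * C1 * C4 ≤ K := hCC4.trans (hCK.trans hKδK)
      have h6 : 0 ≤ (K : ℝ) ^ (-M - 2) * (K : ℝ) ^ δ := by positivity
      calc C4 * H * (K : ℝ) ^ (-M - 2) * (2 * (C1 * (K : ℝ) ^ δ))
          = H * (((K : ℝ) ^ (-M - 2) * (K : ℝ) ^ δ) * (2 * C1 * C4)) := by ring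
        _ ≤ H * (((K : ℝ) ^ (-M - 2) * (K : ℝ) ^ δ) * K) := by gcongr
        _ = H * ((K : ℝ) ^ (-M - 2) * ((K : ℝ) ^ δ * K)) := by ring
        _ ≤ H * 1 := by gcongr
        _ = H := mul_one _
    have hSYe : Sep (Y i j) := fun z hz z' hz' hne => hSep z (hYX i j hz) z' (hYX i j hz') hne
    have hS1 : ∀ W ∈ Wf i j, W.1 ∈ Ks 2 (sR ((K : ℝ) ^ 2)) ∧
        al N β ((K : ℝ) ^ 2) δ G W ≤ 2 * (2 ^ i * q) := by
      intro W hW
      obtain ⟨h1, h2, h3⟩ := hWf i j W hW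
      refine ⟨by rw [sR_sq]; exact h1, ?_⟩
      have e : (2 : ℝ) ^ (i + 1) * q = 2 * (2 ^ i * q) := by ring
      rw [← e]
      exact h3.le
    have hS2 : ∀ z ∈ Y i j, H' ≤ ‖∑ W ∈ Wf i j, Fp β ψ ((K : ℝ) ^ 2) δ G W z‖ ∧
        MS N ((K : ℝ) ^ 2) δ (Wf i j) z ≤ 3 * 2 ^ j := by
      intro z hz
      obtain ⟨h1, h2, h3, h4, h5⟩ := hY i j z hz
      have hf := hfil i j z hz
      constructor
      · have hsplit : ∑ W ∈ Wf i j, Fp β ψ ((K : ℝ) ^ 2) δ G W z =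
            ∑ W ∈ Sz z i, Fp β ψ ((K : ℝ) ^ 2) δ G W z +
            ∑ W ∈ (Wf i j).filter (fun W => ¬ near ((K : ℝ) ^ 2) δ W z),
              Fp β ψ ((K : ℝ) ^ 2) δ G W z := by
          rw [← hf]
          exact (Finset.sum_filter_add_sum_filter_not _ _ _).symm
        have hfar := (hT (1 / 4) ((K : ℝ) ^ 2) A' G
          ((Wf i j).filter (fun W => ¬ near ((K : ℝ) ^ 2) δ W z)) z (by norm_num) (by norm_num)
          hK2 hA'0 hCls' (fun W hW => (hS1 W (Finset.mem_filter.mp hW).1).1)).1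
          (fun W hW => (Finset.mem_filter.mp hW).2)
        have hfar2 : ‖∑ W ∈ (Wf i j).filter (fun W => ¬ near ((K : ℝ) ^ 2) δ W z),
            Fp β ψ ((K : ℝ) ^ 2) δ G W z‖ ≤ H' :=
          (norm_sum_le _ _).trans (hfar.trans hsmall)
        have hnear : 2 * H' ≤ ‖∑ W ∈ Sz z i, Fp β ψ ((K : ℝ) ^ 2) δ G W z‖ := by
          have e : 2 * H' = H / (C1 * (K : ℝ) ^ δ) := by
            rw [hH']
            field_simp
          rw [e, div_le_iff₀ hc10]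
          linarith
        rw [hsplit]
        have h6 := norm_sub_le_norm_add (∑ W ∈ Sz z i, Fp β ψ ((K : ℝ) ^ 2) δ G W z)
          (∑ W ∈ (Wf i j).filter (fun W => ¬ near ((K : ℝ) ^ 2) δ W z),
            Fp β ψ ((K : ℝ) ^ 2) δ G W z)
        linarith
      · have h6 := hB ((K : ℝ) ^ 2) (Wf i j) z hK2 (hCC2.trans (hCK.trans hK2δ))
          (fun W hW => (hS1 W hW).1)
        rw [hf] at h6
        have h8 : ((Sz z i).card : ℝ) ≤ 2 ^ (j + 1) := by exact_mod_cast h3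
        have h9 : (1 : ℝ) ≤ 2 ^ j := one_le_pow₀ (by norm_num)
        have e : (2 : ℝ) ^ (j + 1) = 2 * 2 ^ j := by ring
        rw [e] at h8
        linarith
    have elo : lo 2 * δ = 400 * δ := by unfold lo; push_cast; ring
    have eK : ((K : ℝ) ^ 2) ^ ((((2 : ℕ) : ℝ) + 2) / 2) = (K : ℝ) ^ 4 := by
      rw [show ((((2 : ℕ) : ℝ) + 2) / 2) = ((2 : ℕ) : ℝ) by norm_num, Real.rpow_natCast]
      ring
    have hJ1 : (1 : ℝ) ≤ 2 ^ j := one_le_pow₀ (by norm_num)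
    have hx0 : (0 : ℝ) ≤ 2 ^ i * q := by positivity
    have hcd0 : (0 : ℝ) ≤ ((Y i j).card : ℝ) := Nat.cast_nonneg _
    have hwd0 : (0 : ℝ) ≤ ((Wf i j).card : ℝ) := Nat.cast_nonneg _
    have hfinal : ∀ (P Cx : ℝ), 2 ≤ P → P ≤ 4 → 0 ≤ Cx → Cx ≤ C5 + C6 →
        ((Y i j).card : ℝ) * H' ^ P ≤ Cx * ((K : ℝ) ^ 2) ^ (lo 2 * δ) *
          (3 * 2 ^ j) ^ (P / 2 - 1) * (2 * (2 ^ i * q)) ^ P * (Wf i j).card *
          ((K : ℝ) ^ 2) ^ ((((2 : ℕ) : ℝ) + 2) / 2) →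
        ((Y i j).card : ℝ) * H ^ P ≤ C * (K : ℝ) ^ (max Ca 804 * δ) *
          ((2 : ℝ) ^ j) ^ (P / 2 - 1) * (2 ^ i * q) ^ P * (Wf i j).card * (K : ℝ) ^ 4 := by
      intro P Cx hP2 hP4 hCx hCx' h
      rw [elo, eK] at h
      have h1 := fin_alg hP2 hP4 hC1 hCx hK1 hδ hx0 hcd0 hwd0 hH0 hJ1 h
      refine h1.trans ?_
      have h2 : Cx * (2 * C1) ^ 4 * 48 ≤ C := by
        refine le_trans ?_ hCCb
        exact mul_le_mul_of_nonneg_right (mul_le_mul_of_nonneg_right hCx' (by positivity))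
          (by norm_num)
      have h3 : (K : ℝ) ^ (804 * δ) ≤ (K : ℝ) ^ (max Ca 804 * δ) := by
        refine Real.rpow_le_rpow_of_exponent_le hK1 ?_
        exact mul_le_mul_of_nonneg_right (le_max_right _ _) hδ.le
      have h4 : Cx * (2 * C1) ^ 4 * 48 * (K : ℝ) ^ (804 * δ) ≤
          C * (K : ℝ) ^ (max Ca 804 * δ) :=
        mul_le_mul h2 h3 (Real.rpow_nonneg hK0.le _) (by linarith)
      have h5 : (0 : ℝ) ≤ ((2 : ℝ) ^ j) ^ (P / 2 - 1) := Real.rpow_nonneg (by linarith) _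
      have h6 : (0 : ℝ) ≤ (2 ^ i * q) ^ P := Real.rpow_nonneg hx0 _
      exact mul_le_mul_of_nonneg_right (mul_le_mul_of_nonneg_right (mul_le_mul_of_nonneg_right
        (mul_le_mul_of_nonneg_right h4 h5) h6) hwd0) (by positivity)
    rcases hP with rfl | rfl
    · exact hfinal 2 C5 le_rfl (by norm_num) (by linarith) (by linarith)
        (hR5 (1 / 4) ((K : ℝ) ^ 2) (2 * (2 ^ i * q)) H' (3 * 2 ^ j) G (Wf i j) (Y i j)
          (by norm_num) (by norm_num) hK2 (hCC5.trans (hCK.trans hK2δ)) hTC hsupp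
          (by positivity) hH'0 hM1 hSYe hS1 hS2)
    · exact hfinal (7 / 2) C6 (by norm_num) (by norm_num) (by linarith) (by linarith)
        (hR6 (1 / 4) ((K : ℝ) ^ 2) (2 * (2 ^ i * q)) H' (3 * 2 ^ j) G (Wf i j) (Y i j)
          (by norm_num) (by norm_num) hK2 (hCC6.trans (hCK.trans hK2δ)) hTC hsupp
          (by positivity) hH'0 hM1 hSYe hS1 hS2)

end Pool.Agent.H97.D3.NST
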