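import Pool.Agent.H87.D3.Targets2
import Pool.Agent.H11.SN.EN1

/-! AZ of `d3h_modules` (MP_2697e3_an): the weighted angular estimate. -/

set_option autoImplicit false

namespace Pool.Agent.H97.D3

open MeasureTheory Metric Set Filter Topology
open Pool.Agent.H87.SN Pool.Agent.H87.SH Pool.Agent.H87.AX Pool.Agent.H87.D3
open Pool.Agent.H11.SN
open scoped ContDiff RealInnerProductSpace ENNReal

noncomputable section

/-- The gradient vanishes at a maximum or minimum. -/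
theorem gsq_eq_zero_of_max {n : ℕ} {f : E n → ℝ} {x : E n} (h : ∀ y, f y ≤ f x) :
    gsq f x = 0 := by
  have h1 : IsLocalMax f x := Eventually.of_forall h
  unfold gsq
  rw [h1.fderiv_eq_zero]
  simp [nsq]

theorem gsq_eq_zero_of_min {n : ℕ} {f : E n → ℝ} {x : E n} (h : ∀ y, f x ≤ f y) :
    gsq f x = 0 := by
  have h1 : IsLocalMin f x := Eventually.of_forall h
  unfold gsq
  rw [h1.fderiv_eq_zero]
  simp [nsq]

/-- The angular condition. -/
theorem uthth_bound {m : ℕ} {L : ℝ} {U : Set V} {u : V → E m} (hU : IsOpen U)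
    (hu : ContDiffOn ℝ ∞ u U) (ho : Orth U u)
    (ha : ∀ x ∈ U, ∀ h : V, |⟪fderiv ℝ (fderiv ℝ u) x h h, lap u x⟫| ≤
      L * ‖fderiv ℝ u x h‖ ^ 2 * en u x) (x : V) (hx : x ∈ U) :
    |⟪uthth u x, lap u x⟫| ≤ L * ‖uth u x‖ ^ 2 * en u x := by
  have h1 : ContDiffOn ℝ ∞ (fderiv ℝ u) U := hu.fderiv_of_isOpen hU (by simp)
  have h2 : DifferentiableAt ℝ (fderiv ℝ u) x :=
    (h1.contDiffAt (hU.mem_nhds hx)).differentiableAt (by simp)
  have h3 : DifferentiableAt ℝ (fun y : V => Jm 1 y) x := (Jm 1).differentiableAt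
  have h4 : uthth u x = fderiv ℝ u x (Jm 1 (Jm 1 x)) +
      fderiv ℝ (fderiv ℝ u) x (Jm 1 x) (Jm 1 x) := by
    unfold uthth
    have e1 : uth u = fun y => fderiv ℝ u y (Jm 1 y) := rfl
    rw [e1, fderiv_clm_apply h2 h3]
    have e2 : fderiv ℝ (fun y : V => Jm 1 y) x = Jm 1 := (Jm 1).fderiv
    rw [e2]
    rfl
  rw [h4, inner_add_left, ho x hx, zero_add]
  exact ha x hx (Jm 1 x)

theorem DD_ge {σ : ℝ} (x : V) : ‖x‖ ^ 2 / 100 ≤ DD σ x := by
  have h1 : ‖x‖ ^ 2 = x 0 ^ 2 + x 1 ^ 2 + x 2 ^ 2 := by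
    rw [EuclideanSpace.norm_eq, Real.sq_sqrt (by positivity)]
    rw [Fin.sum_univ_three]
    simp only [Real.norm_eq_abs, sq_abs]
  unfold DD
  rw [h1]
  nlinarith [sq_nonneg σ, sq_nonneg (x 0), sq_nonneg (x 1)]

theorem DD_ge' {σ : ℝ} (x : V) : σ ^ 2 ≤ DD σ x := by
  unfold DD
  nlinarith [sq_nonneg (x 0), sq_nonneg (x 1), sq_nonneg (x 2)]

theorem rho_le_norm (x : V) : rho x ≤ ‖x‖ := by
  unfold rho
  rw [EuclideanSpace.norm_eq]
  refine Real.sqrt_le_sqrt ?_
  rw [Fin.sum_univ_three]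
  simp only [Real.norm_eq_abs, sq_abs]
  nlinarith [sq_nonneg (x 2)]

/-- The weight away from the centre. -/
theorem ww_le_far {σ : ℝ} {x : V} (h1 : 1 / 8 ≤ ‖x‖) (h2 : ‖x‖ ≤ 1 / 4) :
    ww σ x ≤ 96000 := by
  have hD : (1 : ℝ) / 6400 ≤ DD σ x := by
    have := DD_ge (σ := σ) x
    nlinarith
  have hr0 := rho_nonneg x
  have hr : rho x ≤ 1 / 4 := (rho_le_norm x).trans h2
  have h3 : rho x / DD σ x ≤ 1600 := by
    rw [div_le_iff₀ (by linarith)]
    linarith
  have h4 : (rho x / DD σ x) ^ (3 / 2 : ℝ) ≤ (1600 : ℝ) ^ (3 / 2 : ℝ) :=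
    Real.rpow_le_rpow (by positivity) h3 (by norm_num)
  have h5 : (1600 : ℝ) ^ (3 / 2 : ℝ) = 64000 := by
    have : (1600 : ℝ) = 40 ^ (2 : ℝ) := by norm_num
    rw [this, ← Real.rpow_mul (by norm_num)]
    norm_num
  unfold ww
  rw [h5] at h4
  linarith

/-- The weight near the axis. -/
theorem ww_le_near {σ h : ℝ} (hσ : 0 < σ) (hh : 0 < h) {x : V} (h1 : rho x ≤ 2 * h) :
    ww σ x ≤ 3 / 2 * (2 * h / σ ^ 2) ^ (3 / 2 : ℝ) := by
  have hD := DD_ge' (σ := σ) x
  have hr0 := rho_nonneg x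
  have h3 : rho x / DD σ x ≤ 2 * h / σ ^ 2 :=
    div_le_div₀ (by positivity) h1 (by positivity) hD
  unfold ww
  refine mul_le_mul_of_nonneg_left (Real.rpow_le_rpow ?_ h3 (by norm_num)) (by norm_num)
  have : 0 < DD σ x := lt_of_lt_of_le (by positivity) hD
  positivity

theorem num_near {σ h : ℝ} (hσ : 0 < σ) (hh : 0 < h) :
    (2 * h / σ ^ 2) ^ (3 / 2 : ℝ) ≤ 3 * h ^ 2 * (1 / (Real.sqrt h * σ ^ 3)) := by
  have h1 : (2 * h / σ ^ 2) ^ (3 / 2 : ℝ) =
      (2 * h) ^ (3 / 2 : ℝ) / σ ^ 3 := by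
    rw [Real.div_rpow (by positivity) (by positivity)]
    congr 1
    rw [← Real.rpow_natCast σ 2, ← Real.rpow_mul hσ.le, ← Real.rpow_natCast σ 3]
    norm_num
  have h2 : (2 * h) ^ (3 / 2 : ℝ) = 2 * h * Real.sqrt (2 * h) := by
    rw [show (3 / 2 : ℝ) = 1 + 1 / 2 by norm_num, Real.rpow_add (by positivity), Real.rpow_one,
      Real.sqrt_eq_rpow]
  have h3 : Real.sqrt (2 * h) ≤ 3 / 2 * Real.sqrt h := by
    rw [Real.sqrt_mul (by norm_num)]
    refine mul_le_mul_of_nonneg_right ?_ (Real.sqrt_nonneg _)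
    rw [Real.sqrt_le_left (by norm_num)]
    norm_num
  have hs : 0 < Real.sqrt h := Real.sqrt_pos.mpr hh
  have hss : Real.sqrt h * Real.sqrt h = h := Real.mul_self_sqrt hh.le
  rw [h1, h2, div_le_iff₀ (by positivity)]
  have e1 : 3 * h ^ 2 * (1 / (Real.sqrt h * σ ^ 3)) * σ ^ 3 = 3 * h * Real.sqrt h := by
    have : h ^ 2 = h * (Real.sqrt h * Real.sqrt h) := by rw [hss]; ring
    rw [this]
    field_simp
  rw [e1]
  nlinarith

theorem pf_AZ (hANG : T_ANG) (hINN : T_INN) (hROT : T_ROT) (hLA1 : T_LA1) (hWTS : T_WTS)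
    (hMUF : T_MUF) : T_AZ := by
  intro L B ζ hL0 hζ
  obtain ⟨Ci, hCi0, hCi⟩ := hINN 1 0
  have hR := hROT 1
  obtain ⟨δ, hδ⟩ : ∃ δ : ℝ, δ = 1 / (4 * (L + 1)) := ⟨_, rfl⟩
  have hδ0 : 0 < δ := by rw [hδ]; positivity
  have hδL : L * δ ^ 2 ≤ 1 / 8 := by
    rw [hδ, div_pow, one_pow, mul_one_div, div_le_iff₀ (by positivity)]
    nlinarith
  obtain ⟨K', hK'⟩ : ∃ K' : ℝ, K' = 2 * (96000 * B ^ 2 + 18 * Ci) := ⟨_, rfl⟩
  have hK'0 : 0 ≤ K' := by rw [hK']; positivity
  refine ⟨δ, 54 * K', hδ0, by positivity, ?_⟩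
  intro m Λ ε U u G hSM σ h hh h4 hσ80 hreg
  have hσ0 : 0 < σ := by linarith
  obtain ⟨-, hDD, het0, -, hkapf, -, -, hwC, hwp, hwr, hwg, hkw⟩ := hWTS σ hσ0
  obtain ⟨χi, hχC, hχ01, hχrot, hχ0, hχ1, hχg, hχg0⟩ := hCi (fun _ => h) contDiff_const
    (fun _ => hh) (fun z => by simp)
  -- the open set
  set U' : Set V := {x | x ∈ ball (0 : V) (7 / 16) ∧ h / 2 < rho x} with hU'
  have hU'o : IsOpen U' := by
    have h1 : U' = ball (0 : V) (7 / 16) ∩ {x | h / 2 < rho x} := rfl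
    rw [h1]
    exact isOpen_ball.inter (isOpen_lt continuous_const continuous_rho)
  have hU'U : U' ⊆ U := fun x hx => (hreg x hx.1 hx.2).1
  have hpos : ∀ x ∈ U', 0 < rho x := fun x hx => lt_trans (by positivity) hx.2
  have hRS : RotSet U' := by
    intro θ x hx
    refine ⟨?_, ?_⟩
    · rw [mem_ball_zero_iff, hR.norm]; exact mem_ball_zero_iff.mp hx.1
    · rw [hR.rho]; exact hx.2
  -- the cutoff
  obtain ⟨χ, hχ⟩ : ∃ χ : V → ℝ, χ = fun x => ζ x * χi x := ⟨_, rfl⟩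
  have hχx : ∀ x, χ x = ζ x * χi x := fun x => by rw [hχ]
  have hχC1 : ContDiff ℝ 1 χ := by rw [hχ]; exact hζ.C1.mul hχC
  have hsupp : Function.support χ ⊆ {x | ‖x‖ ≤ 1 / 4 ∧ 9 / 8 * h ≤ rho x} := by
    intro x hx
    rw [Function.mem_support, hχx] at hx
    constructor
    · by_contra h
      push Not at h
      exact hx (by rw [hζ.zero x h.le, zero_mul])
    · by_contra h
      push Not at h
      exact hx (by rw [hχ0 x h.le, mul_zero])
  have hclosed : IsClosed {x : V | ‖x‖ ≤ 1 / 4 ∧ 9 / 8 * h ≤ rho x} :=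
    (isClosed_le continuous_norm continuous_const).inter
      (isClosed_le continuous_const continuous_rho)
  have hts : tsupport χ ⊆ {x | ‖x‖ ≤ 1 / 4 ∧ 9 / 8 * h ≤ rho x} :=
    closure_minimal hsupp hclosed
  have htsU : tsupport χ ⊆ U' := fun x hx => by
    obtain ⟨h1, h2⟩ := hts hx
    exact ⟨mem_ball_zero_iff.mpr (by linarith), by linarith⟩
  have hcs : HasCompactSupport χ :=
    IsCompact.of_isClosed_subset (isCompact_closedBall (0 : V) (1 / 4))
      (isClosed_tsupport χ) (fun x hx => mem_closedBall_zero_iff.mpr (hts hx).1)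
  have hχrot' : ∀ (θ : ℝ) (x : V), χ (rot θ x) = χ x := by
    intro θ x
    rw [hχx, hχx, hχrot θ x, hζ.rad (rot θ x) x (hR.norm θ x)]
  have hχnn : ∀ x, 0 ≤ χ x := fun x => by
    rw [hχx]
    exact mul_nonneg (hζ.bd x).1 (hχ01 x).1
  have hsm : ContDiffOn ℝ ∞ u U' := hSM.smooth.mono hU'U
  have hor : Orth U' u := fun x hx v => hSM.orth x (hU'U hx) v
  have hen0 : ∀ x, 0 ≤ en u x := fun x => nsq_nonneg _
  have hangb : ∀ x ∈ U', |⟪uthth u x, lap u x⟫| * rho x ^ 2 ≤ 1 / 8 * ‖uth u x‖ ^ 2 := by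
    intro x hx
    have h1 := uthth_bound hU'o hsm hor (fun x hx v => hSM.ang x (hU'U hx) v) x hx
    have h2 := (hreg x hx.1 hx.2).2
    calc |⟪uthth u x, lap u x⟫| * rho x ^ 2 ≤ (L * ‖uth u x‖ ^ 2 * en u x) * rho x ^ 2 :=
          mul_le_mul_of_nonneg_right h1 (sq_nonneg _)
      _ = L * (rho x ^ 2 * en u x) * ‖uth u x‖ ^ 2 := by ring
      _ ≤ L * δ ^ 2 * ‖uth u x‖ ^ 2 :=
          mul_le_mul_of_nonneg_right (mul_le_mul_of_nonneg_left h2 hL0) (sq_nonneg _)
      _ ≤ 1 / 8 * ‖uth u x‖ ^ 2 := mul_le_mul_of_nonneg_right hδL (sq_nonneg _)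
  have hwC1 : ContDiffOn ℝ 1 (ww σ) U' :=
    (hwC.of_le (by exact_mod_cast le_top)).mono hpos
  have hang : ∫ x, χ x ^ 2 * ww σ x * (rho x ^ 2)⁻¹ * ‖uth u x‖ ^ 2 ≤
      54 * ∫ x, ww σ x * gsq χ x * ‖uth u x‖ ^ 2 :=
    hANG 1 m U' u (ww σ) χ hU'o hRS hpos hsm hor hangb hwC1
      (fun x hx => hwp x (hpos x hx)) (fun θ x _ => hwr θ x)
      (fun x hx => hwg x (hpos x hx)) hχC1 hcs htsU hχrot'
  -- the two sets and the right side
  set b4 : Set V := ball (0 : V) (1 / 4) with hb4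
  set N4 : Set V := {x | x ∈ b4 ∧ rho x < 2 * h} with hN4
  set q : ℝ := 1 / (Real.sqrt h * σ ^ 3) with hq
  have hq0 : 0 < q := by
    have := Real.sqrt_pos.mpr hh
    rw [hq]
    positivity
  have hb4m : MeasurableSet b4 := measurableSet_ball
  have hN4m : MeasurableSet N4 :=
    hb4m.inter (isOpen_lt continuous_rho continuous_const).measurableSet
  have hb42 : b4 ⊆ ball (0 : V) 2 := ball_subset_ball (by norm_num)
  have hrm : Measurable (fun x : V => rho x ^ 2) := (continuous_rho.pow 2).measurable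
  have hr1 : ∀ x ∈ b4, 0 ≤ rho x ^ 2 ∧ rho x ^ 2 ≤ 1 := by
    intro x hx
    have h1 := rho_le_norm x
    have h2 := mem_ball_zero_iff.mp hx
    have h3 := rho_nonneg x
    exact ⟨sq_nonneg _, by nlinarith⟩
  have hmuf := (hMUF m G hSM.gd.memG).2.2.2.2.1
  have hIb : IntegrableOn (fun x => rho x ^ 2 * nsq (G x)) b4 :=
    (hmuf _ b4 1 hrm hb4m hb42 hr1).1
  have hIN : IntegrableOn (fun x => rho x ^ 2 * nsq (G x)) N4 :=
    (hmuf _ N4 1 hrm hN4m (fun x hx => hb42 hx.1) (fun x hx => hr1 x hx.1)).1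
  -- the pointwise bound
  have key : ∀ x ∈ U', ww σ x * gsq χ x * ‖uth u x‖ ^ 2 ≤
      K' * (q * N4.indicator (fun x => rho x ^ 2 * nsq (fderiv ℝ u x)) x +
        b4.indicator (fun x => rho x ^ 2 * nsq (fderiv ℝ u x)) x) := by
    intro x hx
    have hw := hwp x (hpos x hx)
    have hn0 := nsq_nonneg (fderiv ℝ u x)
    have hI1 : 0 ≤ N4.indicator (fun x => rho x ^ 2 * nsq (fderiv ℝ u x)) x :=
      indicator_nonneg (fun y _ => mul_nonneg (sq_nonneg _) (nsq_nonneg _)) x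
    by_cases hx4 : 1 / 4 ≤ ‖x‖
    · have h1 : gsq χ x = 0 := by
        refine gsq_eq_zero_of_min fun y => ?_
        rw [hχx x, hζ.zero x hx4, zero_mul]
        exact hχnn y
      have hI2 : 0 ≤ b4.indicator (fun x => rho x ^ 2 * nsq (fderiv ℝ u x)) x :=
        indicator_nonneg (fun y _ => mul_nonneg (sq_nonneg _) (nsq_nonneg _)) x
      rw [h1]
      have : 0 ≤ K' * (q * N4.indicator (fun x => rho x ^ 2 * nsq (fderiv ℝ u x)) x +
        b4.indicator (fun x => rho x ^ 2 * nsq (fderiv ℝ u x)) x) := by positivity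
      simpa using this
    push Not at hx4
    have hxb : x ∈ b4 := mem_ball_zero_iff.mpr hx4
    rw [indicator_of_mem hxb]
    have h1 : ‖uth u x‖ ^ 2 ≤ rho x ^ 2 * nsq (fderiv ℝ u x) := by
      have h2 := hLA1 1 m (fderiv ℝ u x) x
      have h3 := nzs_nonneg (fderiv ℝ u x)
      unfold uth
      nlinarith [mul_nonneg (sq_nonneg (rho x)) h3, sq_nonneg ‖fderiv ℝ u x (Pm 1 x)‖]
    have h4' : gsq χ x ≤ 2 * (gsq χi x + gsq ζ x) := by
      rw [hχ]
      exact gsq_mul_le (hζ.C1.differentiable (by norm_num) x)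
        (hχC.differentiable (by norm_num) x) (hζ.bd x) (hχ01 x)
    set n := rho x ^ 2 * nsq (fderiv ℝ u x) with hn
    have hn0' : 0 ≤ n := mul_nonneg (sq_nonneg _) hn0
    -- outer cutoff
    have h5 : ww σ x * gsq ζ x ≤ 96000 * B ^ 2 := by
      by_cases h8 : ‖x‖ ≤ 1 / 8
      · have h9 : gsq ζ x = 0 := by
          refine gsq_eq_zero_of_max fun y => ?_
          rw [hζ.one x h8]
          exact (hζ.bd y).2
        rw [h9, mul_zero]
        positivity
      · push Not at h8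
        exact mul_le_mul (ww_le_far h8.le hx4.le) (hζ.gr x) (gsq_nonneg _ _) (by norm_num)
    -- inner cutoff
    have h6 : ww σ x * gsq χi x * n ≤ 18 * Ci *
        (q * N4.indicator (fun x => rho x ^ 2 * nsq (fderiv ℝ u x)) x) := by
      by_cases h9 : 2 * h ≤ rho x
      · have h10 : gsq χi x = 0 := by
          refine gsq_eq_zero_of_max fun y => ?_
          rw [hχ1 x h9]
          exact (hχ01 y).2
        rw [h10, mul_zero, zero_mul]
        positivity
      · push Not at h9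
        have hxN : x ∈ N4 := ⟨hxb, h9⟩
        rw [indicator_of_mem hxN]
        have h10 := hχg x
        have hrx := hpos x hx
        have h11 : gsq χi x ≤ 4 * Ci / h ^ 2 := by
          have h12 : h / 2 < rho x := hx.2
          have h13 : (h / 2) ^ 2 * gsq χi x ≤ Ci := by
            refine le_trans (mul_le_mul_of_nonneg_right ?_ (gsq_nonneg _ _)) h10
            exact pow_le_pow_left₀ (by positivity) h12.le 2
          rw [le_div_iff₀ (by positivity)]
          nlinarith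
        have h14 := (ww_le_near hσ0 hh h9.le).trans
          (mul_le_mul_of_nonneg_left (num_near hσ0 hh) (by norm_num))
        have h15 : ww σ x * gsq χi x ≤ (3 / 2 * (3 * h ^ 2 * q)) * (4 * Ci / h ^ 2) :=
          mul_le_mul h14 h11 (gsq_nonneg _ _) (by positivity)
        have h16 : (3 / 2 * (3 * h ^ 2 * q)) * (4 * Ci / h ^ 2) = 18 * Ci * q := by
          field_simp
          ring
        rw [h16] at h15
        calc ww σ x * gsq χi x * n ≤ 18 * Ci * q * n := mul_le_mul_of_nonneg_right h15 hn0'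
          _ = 18 * Ci * (q * n) := by ring
    have hg1 := gsq_nonneg χi x
    have hg2 := gsq_nonneg ζ x
    calc ww σ x * gsq χ x * ‖uth u x‖ ^ 2 ≤
        ww σ x * (2 * (gsq χi x + gsq ζ x)) * n := by
          refine mul_le_mul (mul_le_mul_of_nonneg_left h4' hw.le) h1 (sq_nonneg _) ?_
          exact mul_nonneg hw.le (by linarith)
      _ = 2 * (ww σ x * gsq χi x * n) + 2 * ((ww σ x * gsq ζ x) * n) := by ring
      _ ≤ 2 * (18 * Ci * (q * N4.indicator (fun x => rho x ^ 2 * nsq (fderiv ℝ u x)) x)) +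
          2 * ((96000 * B ^ 2) * n) := by
          have := mul_le_mul_of_nonneg_right h5 hn0'
          linarith
      _ ≤ K' * (q * N4.indicator (fun x => rho x ^ 2 * nsq (fderiv ℝ u x)) x + n) := by
          rw [hK']
          have e1 : 0 ≤ q * N4.indicator (fun x => rho x ^ 2 * nsq (fderiv ℝ u x)) x :=
            mul_nonneg hq0.le hI1
          have e2 : 0 ≤ B ^ 2 := sq_nonneg _
          nlinarith [mul_nonneg e2 e1, mul_nonneg hCi0 hn0']
  have hae : ∀ᵐ x ∂(volume : Measure V), x ∈ U → G x = fderiv ℝ u x :=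
    (ae_restrict_iff' hSM.opn.measurableSet).mp hSM.ae
  have hz : ∀ x, x ∉ U' → gsq χ x = 0 := by
    intro x hx
    have h1 : x ∉ tsupport χ := fun h => hx (htsU h)
    have h2 : fderiv ℝ χ x = 0 := by
      by_contra h
      exact h1 (support_fderiv_subset ℝ h)
    unfold gsq
    rw [h2]
    simp [nsq]
  have hIR : Integrable (fun x => K' * (q * N4.indicator (fun x => rho x ^ 2 * nsq (G x)) x +
        b4.indicator (fun x => rho x ^ 2 * nsq (G x)) x)) (volume : Measure V) :=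
    (((integrable_indicator_iff hN4m).mpr hIN).const_mul q |>.add
      ((integrable_indicator_iff hb4m).mpr hIb)).const_mul K'
  have hRb : ∫ x, ww σ x * gsq χ x * ‖uth u x‖ ^ 2 ≤
      K' * (q * (∫ x in N4, rho x ^ 2 * nsq (G x)) + ∫ x in b4, rho x ^ 2 * nsq (G x)) := by
    have e1 : ∫ x, K' * (q * N4.indicator (fun x => rho x ^ 2 * nsq (G x)) x +
        b4.indicator (fun x => rho x ^ 2 * nsq (G x)) x) =
        K' * (q * (∫ x in N4, rho x ^ 2 * nsq (G x)) + ∫ x in b4, rho x ^ 2 * nsq (G x)) := by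
      rw [integral_const_mul, integral_add
        (((integrable_indicator_iff hN4m).mpr hIN).const_mul q)
        ((integrable_indicator_iff hb4m).mpr hIb), integral_const_mul,
        integral_indicator hN4m, integral_indicator hb4m]
    rw [← e1]
    refine integral_mono_of_nonneg ?_ hIR ?_
    · refine Eventually.of_forall fun x => ?_
      show 0 ≤ ww σ x * gsq χ x * ‖uth u x‖ ^ 2
      by_cases hx : x ∈ U'
      · exact mul_nonneg (mul_nonneg (hwp x (hpos x hx)).le (gsq_nonneg _ _)) (sq_nonneg _)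
      · rw [hz x hx]; simp
    · filter_upwards [hae] with x hx
      show ww σ x * gsq χ x * ‖uth u x‖ ^ 2 ≤ K' * (q * N4.indicator
        (fun x => rho x ^ 2 * nsq (G x)) x + b4.indicator (fun x => rho x ^ 2 * nsq (G x)) x)
      by_cases hxn : x ∈ U'
      · have h1 := key x hxn
        have h2 := hx (hU'U hxn)
        have e2 : N4.indicator (fun x => rho x ^ 2 * nsq (G x)) x =
            N4.indicator (fun x => rho x ^ 2 * nsq (fderiv ℝ u x)) x := by
          simp only [indicator, h2]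
        have e3 : b4.indicator (fun x => rho x ^ 2 * nsq (G x)) x =
            b4.indicator (fun x => rho x ^ 2 * nsq (fderiv ℝ u x)) x := by
          simp only [indicator, h2]
        rw [e2, e3]
        exact h1
      · rw [hz x hxn]
        have h1 : 0 ≤ N4.indicator (fun x => rho x ^ 2 * nsq (G x)) x :=
          indicator_nonneg (fun y _ => mul_nonneg (sq_nonneg _) (nsq_nonneg _)) x
        have h2 : 0 ≤ b4.indicator (fun x => rho x ^ 2 * nsq (G x)) x :=
          indicator_nonneg (fun y _ => mul_nonneg (sq_nonneg _) (nsq_nonneg _)) x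
        have : 0 ≤ K' * (q * N4.indicator (fun x => rho x ^ 2 * nsq (G x)) x +
          b4.indicator (fun x => rho x ^ 2 * nsq (G x)) x) := by positivity
        simpa using this
  -- the left side
  set S : Set V := {x | x ∈ ball (0 : V) (1 / 4) ∧ 2 * h ≤ rho x} with hS
  have hSm : MeasurableSet S :=
    measurableSet_ball.inter (isClosed_le continuous_const continuous_rho).measurableSet
  have huth : ContinuousOn (uth u) U' := by
    have h1 : ContinuousOn (fderiv ℝ u) U' :=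
      hsm.continuousOn_fderiv_of_isOpen hU'o (by exact_mod_cast le_top)
    exact h1.clm_apply (Jm 1).continuous.continuousOn
  have hI : Integrable (fun x => χ x ^ 2 * ww σ x * (rho x ^ 2)⁻¹ * ‖uth u x‖ ^ 2)
      (volume : Measure V) := by
    have e : (fun x => χ x ^ 2 * ww σ x * (rho x ^ 2)⁻¹ * ‖uth u x‖ ^ 2) =
        fun x => χ x * (χ x * ww σ x * (rho x ^ 2)⁻¹ * ‖uth u x‖ ^ 2) := by
      funext x
      ring
    rw [e]
    refine Continuous.integrable_of_hasCompactSupport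
      (continuous_mul_of_tsupport hU'o hχC1.continuous htsU ?_) hcs.mul_right
    refine ContinuousOn.mul (ContinuousOn.mul (ContinuousOn.mul hχC1.continuous.continuousOn
      hwC1.continuousOn) ?_) (huth.norm.pow 2)
    refine ContinuousOn.inv₀ (continuous_rho.pow 2).continuousOn fun x hx => ?_
    exact pow_ne_zero 2 (hpos x hx).ne'
  have hnn : ∀ x, 0 ≤ χ x ^ 2 * ww σ x * (rho x ^ 2)⁻¹ * ‖uth u x‖ ^ 2 := by
    intro x
    rcases (rho_nonneg x).eq_or_lt with h | h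
    · have h1 : χ x = 0 := by
        rw [hχx, hχ0 x (by rw [← h]; positivity), mul_zero]
      rw [h1]
      simp
    · have hw := hwp x h
      positivity
  have hkap0 : ∀ x, 0 ≤ kap (et σ) x := by
    intro x
    rw [hkapf x]
    have := hDD x
    positivity
  have hL1 : ∫ x in S, ζ x ^ 2 * (kap (et σ) x * ((rho x ^ 2)⁻¹ * ‖G x (Jm 1 x)‖ ^ 2)) ≤
      ∫ x in S, χ x ^ 2 * ww σ x * (rho x ^ 2)⁻¹ * ‖uth u x‖ ^ 2 := by
    refine integral_mono_of_nonneg ?_ hI.integrableOn ?_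
    · refine Eventually.of_forall fun x => ?_
      show 0 ≤ ζ x ^ 2 * (kap (et σ) x * ((rho x ^ 2)⁻¹ * ‖G x (Jm 1 x)‖ ^ 2))
      have := hkap0 x
      positivity
    · have h1 : ∀ᵐ x ∂(volume.restrict S), x ∈ S := ae_restrict_mem hSm
      filter_upwards [h1, ae_restrict_of_ae hae] with x hxS hxG
      show ζ x ^ 2 * (kap (et σ) x * ((rho x ^ 2)⁻¹ * ‖G x (Jm 1 x)‖ ^ 2)) ≤
        χ x ^ 2 * ww σ x * (rho x ^ 2)⁻¹ * ‖uth u x‖ ^ 2
      have hxU' : x ∈ U' := by
        have h2 := mem_ball_zero_iff.mp hxS.1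
        exact ⟨mem_ball_zero_iff.mpr (by linarith), by linarith [hxS.2]⟩
      have h3 : χ x = ζ x := by rw [hχx, hχ1 x hxS.2, mul_one]
      rw [h3, hxG (hU'U hxU')]
      have h4 := hkw x (hpos x hxU')
      have h5 : 0 ≤ ζ x ^ 2 * ((rho x ^ 2)⁻¹ * ‖uth u x‖ ^ 2) := by positivity
      calc ζ x ^ 2 * (kap (et σ) x * ((rho x ^ 2)⁻¹ * ‖fderiv ℝ u x (Jm 1 x)‖ ^ 2))
          = kap (et σ) x * (ζ x ^ 2 * ((rho x ^ 2)⁻¹ * ‖uth u x‖ ^ 2)) := by
            unfold uth
            ring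
        _ ≤ ww σ x * (ζ x ^ 2 * ((rho x ^ 2)⁻¹ * ‖uth u x‖ ^ 2)) :=
            mul_le_mul_of_nonneg_right h4 h5
        _ = _ := by ring
  have hL2 := setIntegral_le_integral (s := S) hI (Eventually.of_forall hnn)
  calc _ ≤ ∫ x in S, χ x ^ 2 * ww σ x * (rho x ^ 2)⁻¹ * ‖uth u x‖ ^ 2 := hL1
    _ ≤ ∫ x, χ x ^ 2 * ww σ x * (rho x ^ 2)⁻¹ * ‖uth u x‖ ^ 2 := hL2
    _ ≤ 54 * ∫ x, ww σ x * gsq χ x * ‖uth u x‖ ^ 2 := hang
    _ ≤ 54 * (K' * (q * (∫ x in N4, rho x ^ 2 * nsq (G x)) +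
        ∫ x in b4, rho x ^ 2 * nsq (G x))) := by linarith
    _ = _ := by ring

end

end Pool.Agent.H97.D3
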