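import Pool.Agent.H87.D3.Targets2
import Pool.Agent.H11.SN.EN1

/-! KST of `d3h_modules` (MP_2697e3_an): the three scale inequality, standard axis. -/

set_option autoImplicit false

namespace Pool.Agent.H97.D3.KST

open MeasureTheory Metric Set Filter Topology
open Pool.Agent.H87.SN Pool.Agent.H87.SH Pool.Agent.H87.AX Pool.Agent.H87.D3
open Pool.Agent.H11.SN
open scoped ContDiff RealInnerProductSpace ENNReal

noncomputable section

theorem norm_sq_V (x : V) : ‖x‖ ^ 2 = x 0 ^ 2 + x 1 ^ 2 + x 2 ^ 2 := by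
  rw [EuclideanSpace.norm_eq, Real.sq_sqrt (by positivity)]
  rw [Fin.sum_univ_three]
  simp only [Real.norm_eq_abs, sq_abs]

theorem rho_le_norm (x : V) : rho x ≤ ‖x‖ := by
  unfold rho
  rw [EuclideanSpace.norm_eq]
  refine Real.sqrt_le_sqrt ?_
  rw [Fin.sum_univ_three]
  simp only [Real.norm_eq_abs, sq_abs]
  nlinarith [sq_nonneg (x 2)]

theorem DD_cont (σ : ℝ) : Continuous (DD σ) := by
  unfold DD
  fun_prop

theorem rpow_seven {σ : ℝ} (hσ : 0 < σ) : σ ^ (-(7 / 2) : ℝ) = (σ ^ 3 * Real.sqrt σ)⁻¹ := by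
  rw [Real.rpow_neg hσ.le]
  congr 1
  rw [show (7 / 2 : ℝ) = 3 + 1 / 2 by norm_num, Real.rpow_add hσ, Real.sqrt_eq_rpow]
  congr 1
  norm_cast

theorem sq_rpow {σ : ℝ} (hσ : 0 < σ) : (σ ^ 2) ^ (-(7 / 4) : ℝ) = (σ ^ 3 * Real.sqrt σ)⁻¹ := by
  rw [← rpow_seven hσ, ← Real.rpow_natCast σ 2, ← Real.rpow_mul hσ.le]
  norm_num

/-- upper bound of the power -/
theorem DD_pow_le {σ : ℝ} (hσ : 0 < σ) (x : V) :
    DD σ x ^ (-(7 / 4) : ℝ) ≤ (σ ^ 3 * Real.sqrt σ)⁻¹ := by
  rw [← sq_rpow hσ]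
  have h1 : σ ^ 2 ≤ DD σ x := by
    unfold DD
    nlinarith [sq_nonneg (x 0), sq_nonneg (x 1), sq_nonneg (x 2)]
  exact Real.rpow_le_rpow_of_nonpos (by positivity) h1 (by norm_num)

/-- lower bound of the power near the centre -/
theorem DD_pow_ge {σ : ℝ} (hσ : 0 < σ) {x : V} (hx : ‖x‖ < 10 * σ) :
    (10201 : ℝ)⁻¹ * (σ ^ 3 * Real.sqrt σ)⁻¹ ≤ DD σ x ^ (-(7 / 4) : ℝ) := by
  have h1 : DD σ x ≤ 101 * σ ^ 2 := by
    have h2 := norm_sq_V x
    have h3 : ‖x‖ ^ 2 ≤ (10 * σ) ^ 2 := pow_le_pow_left₀ (norm_nonneg _) hx.le 2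
    unfold DD
    nlinarith [sq_nonneg (x 0), sq_nonneg (x 1), sq_nonneg (x 2)]
  have h0 : 0 < DD σ x := by
    unfold DD
    positivity
  have h2 : (101 * σ ^ 2) ^ (-(7 / 4) : ℝ) ≤ DD σ x ^ (-(7 / 4) : ℝ) :=
    Real.rpow_le_rpow_of_nonpos h0 h1 (by norm_num)
  refine le_trans ?_ h2
  rw [Real.mul_rpow (by norm_num) (by positivity), sq_rpow hσ]
  refine mul_le_mul_of_nonneg_right ?_ (by positivity)
  have h3 : (101 : ℝ) ^ (-2 : ℝ) ≤ (101 : ℝ) ^ (-(7 / 4) : ℝ) :=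
    Real.rpow_le_rpow_of_exponent_le (by norm_num) (by norm_num)
  refine le_trans (le_of_eq ?_) h3
  rw [Real.rpow_neg (by norm_num)]
  norm_num

theorem pf_KST (hCUT : T_CUT) (hLA1 : T_LA1) (hWTS : T_WTS) (hPZ : T_PZ) (hAZ : T_AZ)
    (hMUF : T_MUF) : T_KST := by
  intro L hL0
  obtain ⟨ζ, B, hζC, hζ01, hζrad, hζ1, hζ0, hB0, hζB⟩ :=
    hCUT (1 + 2) (1 / 8) (1 / 4) (by norm_num) (by norm_num)
  have hζ : Cz ζ B := ⟨hζC.of_le (by exact_mod_cast le_top), hζ01, hζrad, hζ1, hζ0, hζB⟩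
  obtain ⟨C1, hC1, hPZ'⟩ := hPZ ζ B hζ
  obtain ⟨δ, C2, hδ, hC2, hAZ'⟩ := hAZ L B ζ hL0 hζ
  obtain ⟨C, hC⟩ : ∃ C : ℝ, C = 10201 * (13 + 13 * C2 + C1) := ⟨_, rfl⟩
  have hC0 : 0 ≤ C := by rw [hC]; positivity
  refine ⟨δ, C, hδ, hC0, ?_⟩
  intro m Λ ε U u G hSM σ h hh h4 hσ80 hreg
  have hσ0 : 0 < σ := by linarith
  have hs0 : 0 < Real.sqrt σ := Real.sqrt_pos.mpr hσ0
  have hsh0 : 0 < Real.sqrt h := Real.sqrt_pos.mpr hh
  have hss : Real.sqrt σ * Real.sqrt σ = σ := Real.mul_self_sqrt hσ0.le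
  obtain ⟨-, hDD, het0, -, hkapf, hkap32, -, -, -, -, -, -⟩ := hWTS σ hσ0
  have hmuf := (hMUF m G hSM.gd.memG).2.2.2.2.1
  have hn0 : ∀ x, 0 ≤ nsq (G x) := fun x => nsq_nonneg _
  have hr0 : ∀ x : V, 0 ≤ rho x := rho_nonneg
  -- the sets
  set A10 : Set V := ball (0 : V) (10 * σ) with hA10
  set b4 : Set V := ball (0 : V) (1 / 4) with hb4
  set N4 : Set V := {x | x ∈ b4 ∧ rho x < 2 * h} with hN4
  set S4 : Set V := {x | x ∈ b4 ∧ 2 * h ≤ rho x} with hS4
  have hb4m : MeasurableSet b4 := measurableSet_ball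
  have hA10m : MeasurableSet A10 := measurableSet_ball
  have hN4m : MeasurableSet N4 :=
    hb4m.inter (isOpen_lt continuous_rho continuous_const).measurableSet
  have hS4m : MeasurableSet S4 :=
    hb4m.inter (isClosed_le continuous_const continuous_rho).measurableSet
  have hb42 : b4 ⊆ ball (0 : V) 2 := ball_subset_ball (by norm_num)
  have hA10b4 : A10 ⊆ b4 := ball_subset_ball (by linarith)
  have hrm : Measurable (fun x : V => rho x ^ 2) := (continuous_rho.pow 2).measurable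
  have hr1 : ∀ x ∈ b4, 0 ≤ rho x ^ 2 ∧ rho x ^ 2 ≤ 1 := by
    intro x hx
    have h1 := rho_le_norm x
    have h2 := mem_ball_zero_iff.mp hx
    have h3 := rho_nonneg x
    exact ⟨sq_nonneg _, by nlinarith⟩
  have hA := hmuf _ A10 1 hrm hA10m (hA10b4.trans hb42) (fun x hx => hr1 x (hA10b4 hx))
  have hb := hmuf _ b4 1 hrm hb4m hb42 hr1
  have hN := hmuf _ N4 1 hrm hN4m (fun x hx => hb42 hx.1) (fun x hx => hr1 x hx.1)
  set IA := ∫ x in A10, rho x ^ 2 * nsq (G x) with hIA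
  set Ib := ∫ x in b4, rho x ^ 2 * nsq (G x) with hIb
  set IN := ∫ x in N4, rho x ^ 2 * nsq (G x) with hIN
  have hIA0 : 0 ≤ IA := integral_nonneg fun x => mul_nonneg (sq_nonneg _) (hn0 x)
  have hIb0 : 0 ≤ Ib := integral_nonneg fun x => mul_nonneg (sq_nonneg _) (hn0 x)
  have hIN0 : 0 ≤ IN := integral_nonneg fun x => mul_nonneg (sq_nonneg _) (hn0 x)
  set p : ℝ := (σ ^ 3 * Real.sqrt σ)⁻¹ with hp
  have hp0 : 0 < p := by rw [hp]; positivity
  -- the weight
  have hkap0 : ∀ x, 0 ≤ kap (et σ) x := by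
    intro x
    rw [hkapf x]
    have := hDD x
    positivity
  have hkapc : Continuous (kap (et σ)) := by
    have e : kap (et σ) = fun x => 3 / 2 * (rho x ^ 2 * DD σ x ^ (-(7 / 4) : ℝ)) := by
      funext x; exact hkapf x
    rw [e]
    refine continuous_const.mul ((continuous_rho.pow 2).mul ?_)
    exact (DD_cont σ).rpow_const fun x => Or.inl (hDD x).ne'
  have hkaple : ∀ x, kap (et σ) x ≤ 3 / 2 * p * rho x ^ 2 := by
    intro x
    rw [hkapf x]
    have h1 := mul_le_mul_of_nonneg_left (DD_pow_le hσ0 x) (sq_nonneg (rho x))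
    rw [← hp] at h1
    linarith
  have hkapge : ∀ x ∈ A10, 3 / 2 * ((10201 : ℝ)⁻¹ * p) * rho x ^ 2 ≤ kap (et σ) x := by
    intro x hx
    rw [hkapf x]
    have h1 := mul_le_mul_of_nonneg_left (DD_pow_ge hσ0 (mem_ball_zero_iff.mp hx))
      (sq_nonneg (rho x))
    rw [← hp] at h1
    linarith
  have hζcont : Continuous ζ := hζC.continuous
  -- integrability of the left side of PZ
  set f : V → ℝ := fun x => ζ x ^ 2 * kap (et σ) x with hf
  have hfm : Measurable f := ((hζcont.pow 2).mul hkapc).measurable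
  have hfb : ∀ x ∈ ball (0 : V) 2, 0 ≤ f x ∧ f x ≤ 6 * p := by
    intro x hx
    have h1 := hkap0 x
    have h2 := hkaple x
    have h3 : ζ x ^ 2 ≤ 1 := pow_le_one₀ (hζ01 x).1 (hζ01 x).2
    have h4 : rho x ^ 2 ≤ 4 := by
      have h5 := rho_le_norm x
      have h6 := mem_ball_zero_iff.mp hx
      have h7 := rho_nonneg x
      nlinarith
    refine ⟨by simp only [hf]; positivity, ?_⟩
    simp only [hf]
    calc ζ x ^ 2 * kap (et σ) x ≤ 1 * kap (et σ) x := mul_le_mul_of_nonneg_right h3 h1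
      _ ≤ 3 / 2 * p * rho x ^ 2 := by linarith
      _ ≤ 3 / 2 * p * 4 := mul_le_mul_of_nonneg_left h4 (by positivity)
      _ = 6 * p := by ring
  have hIf : IntegrableOn (fun x => f x * nsq (G x)) (ball (0 : V) 2) :=
    (hmuf f (ball (0 : V) 2) (6 * p) hfm measurableSet_ball subset_rfl hfb).1
  -- left side
  have hleft : 3 / 2 * ((10201 : ℝ)⁻¹ * p) * IA ≤
      ∫ x in ball (0 : V) 2, ζ x ^ 2 * (kap (et σ) x * nsq (G x)) := by
    have h1 : ∫ x in A10, f x * nsq (G x) ≤ ∫ x in ball (0 : V) 2, f x * nsq (G x) := by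
      refine setIntegral_mono_set hIf ?_ ?_
      · filter_upwards [ae_restrict_mem measurableSet_ball] with x hx
        exact mul_nonneg (hfb x hx).1 (hn0 x)
      · exact (HasSubset.Subset.eventuallyLE (hA10b4.trans hb42))
    have h2 : 3 / 2 * ((10201 : ℝ)⁻¹ * p) * IA ≤ ∫ x in A10, f x * nsq (G x) := by
      rw [hIA, ← integral_const_mul]
      refine setIntegral_mono_on (hA.1.const_mul _) (hIf.mono_set (hA10b4.trans hb42)) hA10m ?_
      intro x hx
      have h3 : ζ x = 1 := hζ1 x (by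
        have := mem_ball_zero_iff.mp hx
        linarith)
      simp only [hf]
      rw [h3, one_pow, one_mul, ← mul_assoc]
      exact mul_le_mul_of_nonneg_right (hkapge x hx) (hn0 x)
    refine h2.trans (h1.trans (le_of_eq ?_))
    refine integral_congr_ae (Eventually.of_forall fun x => ?_)
    simp only [hf]
    ring
  -- the angular term
  have hGJ : ∀ x : V, (rho x ^ 2)⁻¹ * ‖G x (Jm 1 x)‖ ^ 2 ≤ nsq (G x) := by
    intro x
    rcases (hr0 x).eq_or_lt with h1 | h1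
    · rw [← h1]
      simp [hn0 x]
    · have h2 := hLA1 1 m (G x) x
      have h3 := nzs_nonneg (G x)
      rw [inv_mul_le_iff₀ (by positivity)]
      nlinarith [mul_nonneg (sq_nonneg (rho x)) h3, sq_nonneg ‖G x (Pm 1 x)‖]
  set g : V → ℝ := fun x => ζ x ^ 2 * (kap (et σ) x * ((rho x ^ 2)⁻¹ * ‖G x (Jm 1 x)‖ ^ 2))
    with hg
  have hg0 : ∀ x, 0 ≤ g x := by
    intro x
    have := hkap0 x
    simp only [hg]
    positivity
  have hgle : ∀ x, g x ≤ f x * nsq (G x) := by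
    intro x
    have h1 := hkap0 x
    simp only [hg, hf]
    rw [mul_assoc]
    exact mul_le_mul_of_nonneg_left (mul_le_mul_of_nonneg_left (hGJ x) h1) (sq_nonneg _)
  have hgi : IntegrableOn g (ball (0 : V) 2) := by
    refine Integrable.mono' hIf ?_ ?_
    · have h1 : AEStronglyMeasurable G (volume.restrict (ball (0 : V) 2)) := hSM.gd.memG.1
      have h2 : AEStronglyMeasurable (fun x => G x (Jm 1 x)) (volume.restrict (ball (0 : V) 2)) :=
        (isBoundedBilinearMap_apply (𝕜 := ℝ) (E := V) (F := E m)).continuous.comp_aestronglyMeasurable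
          (h1.prodMk (Jm 1).continuous.aestronglyMeasurable)
      have h3 : AEStronglyMeasurable (fun x : V => ζ x ^ 2) (volume.restrict (ball (0 : V) 2)) :=
        (hζcont.pow 2).aestronglyMeasurable
      have h4 : AEStronglyMeasurable (fun x : V => (rho x ^ 2)⁻¹)
          (volume.restrict (ball (0 : V) 2)) := hrm.inv.aestronglyMeasurable
      exact h3.mul (hkapc.aestronglyMeasurable.mul (h4.mul (h2.norm.pow 2)))
    · refine Eventually.of_forall fun x => ?_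
      rw [Real.norm_eq_abs, abs_of_nonneg (hg0 x)]
      exact hgle x
  have hmid : ∫ x in ball (0 : V) 2, g x ≤ 3 / 2 * p * IN +
      C2 * (1 / (Real.sqrt h * σ ^ 3) * IN + Ib) := by
    have h1 : ∫ x in ball (0 : V) 2, g x = ∫ x in b4, g x := by
      refine setIntegral_eq_of_subset_of_forall_sdiff_eq_zero measurableSet_ball hb42 ?_
      intro x hx
      have h2 : ζ x = 0 := hζ0 x (by
        by_contra h3
        push Not at h3
        exact hx.2 (mem_ball_zero_iff.mpr h3))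
      simp only [hg]
      rw [h2]
      ring
    have h2 : b4 = N4 ∪ S4 := by
      ext x
      constructor
      · intro hx
        rcases lt_or_ge (rho x) (2 * h) with h3 | h3
        · exact Or.inl ⟨hx, h3⟩
        · exact Or.inr ⟨hx, h3⟩
      · rintro (h3 | h3)
        · exact h3.1
        · exact h3.1
    have hdis : Disjoint N4 S4 := by
      rw [Set.disjoint_left]
      intro x h3 h4
      exact absurd h3.2 (not_lt.mpr h4.2)
    have h3 : ∫ x in b4, g x = (∫ x in N4, g x) + ∫ x in S4, g x := by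
      rw [h2]
      exact setIntegral_union hdis hS4m (hgi.mono_set fun x hx => hb42 hx.1)
        (hgi.mono_set fun x hx => hb42 hx.1)
    have h4 : ∫ x in N4, g x ≤ 3 / 2 * p * IN := by
      rw [hIN, ← integral_const_mul]
      refine setIntegral_mono_on (hgi.mono_set fun x hx => hb42 hx.1) (hN.1.const_mul _) hN4m ?_
      intro x hx
      refine (hgle x).trans ?_
      simp only [hf]
      rw [← mul_assoc]
      refine mul_le_mul_of_nonneg_right ?_ (hn0 x)
      have h5 : ζ x ^ 2 ≤ 1 := pow_le_one₀ (hζ01 x).1 (hζ01 x).2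
      calc ζ x ^ 2 * kap (et σ) x ≤ 1 * kap (et σ) x := mul_le_mul_of_nonneg_right h5 (hkap0 x)
        _ ≤ 3 / 2 * p * rho x ^ 2 := by linarith [hkaple x]
    have h5 := hAZ' m Λ ε U u G hSM σ h hh (by assumption) hσ80 hreg
    rw [h1, h3]
    exact add_le_add h4 h5
  have hPZ2 := hPZ' m G hSM.gd.memG hSM.gd.stat σ hσ0 (by linarith)
  have hreal : (σ ^ 3)⁻¹ * IA ≤
      C * (1 / Real.sqrt (h * σ ^ 5) * IN + Real.sqrt σ * Ib) := by
    have h1 : 3 / 2 * ((10201 : ℝ)⁻¹ * p) * IA ≤ 13 * (3 / 2 * p * IN +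
      C2 * (1 / (Real.sqrt h * σ ^ 3) * IN + Ib)) + C1 * Ib := by
      refine hleft.trans (hPZ2.trans ?_)
      have := mul_le_mul_of_nonneg_left hmid (show (0 : ℝ) ≤ 13 by norm_num)
      linarith
    -- powers
    have e1 : p * Real.sqrt σ = (σ ^ 3)⁻¹ := by
      rw [hp]
      field_simp
    have e2 : Real.sqrt (h * σ ^ 5) = Real.sqrt h * (σ ^ 2 * Real.sqrt σ) := by
      rw [Real.sqrt_mul hh.le]
      congr 1
      rw [show σ ^ 5 = (σ ^ 2) ^ 2 * σ by ring, Real.sqrt_mul (by positivity),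
        Real.sqrt_sq (by positivity)]
    have e3 : 1 / (Real.sqrt h * σ ^ 3) * Real.sqrt σ = 1 / Real.sqrt (h * σ ^ 5) := by
      rw [e2]
      have : σ ^ 3 = σ ^ 2 * (Real.sqrt σ * Real.sqrt σ) := by rw [hss]; ring
      rw [this]
      field_simp
    have e4 : (σ ^ 3)⁻¹ ≤ 1 / Real.sqrt (h * σ ^ 5) := by
      rw [inv_eq_one_div]
      refine one_div_le_one_div_of_le (by rw [e2]; positivity) ?_
      have : Real.sqrt (h * σ ^ 5) ≤ Real.sqrt ((σ ^ 3) ^ 2) := by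
        refine Real.sqrt_le_sqrt ?_
        have : h * σ ^ 5 ≤ σ * σ ^ 5 := mul_le_mul_of_nonneg_right (by linarith) (by positivity)
        calc h * σ ^ 5 ≤ σ * σ ^ 5 := this
          _ = (σ ^ 3) ^ 2 := by ring
      rwa [Real.sqrt_sq (by positivity)] at this
    have hqs0 : 0 ≤ 1 / Real.sqrt (h * σ ^ 5) := by positivity
    have h2 := mul_le_mul_of_nonneg_right h1 (show 0 ≤ 6801 * Real.sqrt σ by positivity)
    have h3 : (3 / 2 * ((10201 : ℝ)⁻¹ * p) * IA) * (6801 * Real.sqrt σ) =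
        (3 / 2 * 6801 / 10201) * ((p * Real.sqrt σ) * IA) := by ring
    have h4 : (13 * (3 / 2 * p * IN + C2 * (1 / (Real.sqrt h * σ ^ 3) * IN + Ib)) + C1 * Ib) *
        (6801 * Real.sqrt σ) = 6801 * (39 / 2 * ((p * Real.sqrt σ) * IN) +
          13 * C2 * ((1 / (Real.sqrt h * σ ^ 3) * Real.sqrt σ) * IN) +
          (13 * C2 + C1) * (Real.sqrt σ * Ib)) := by ring
    rw [h3, h4, e1, e3] at h2
    have h5 : (σ ^ 3)⁻¹ * IN ≤ 1 / Real.sqrt (h * σ ^ 5) * IN :=
      mul_le_mul_of_nonneg_right e4 hIN0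
    have h6 : 0 ≤ (σ ^ 3)⁻¹ * IA := by positivity
    have h7 : 0 ≤ Real.sqrt σ * Ib := by positivity
    have h8 : 0 ≤ 1 / Real.sqrt (h * σ ^ 5) * IN := by positivity
    have h9 : 0 ≤ C2 * (1 / Real.sqrt (h * σ ^ 5) * IN) := by positivity
    have h10 : 0 ≤ C1 * (1 / Real.sqrt (h * σ ^ 5) * IN) := by positivity
    have h11 : 0 ≤ C2 * (Real.sqrt σ * Ib) := by positivity
    have h12 : 0 ≤ C1 * (Real.sqrt σ * Ib) := by positivity
    rw [hC]
    nlinarith
  rw [hA.2, hb.2, hN.2, ← ENNReal.ofReal_mul (by positivity), ← ENNReal.ofReal_mul (by positivity),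
    ← ENNReal.ofReal_mul (by positivity), ← ENNReal.ofReal_add (by positivity) (by positivity),
    ← ENNReal.ofReal_mul hC0]
  exact ENNReal.ofReal_le_ofReal hreal

end

end Pool.Agent.H97.D3.KST
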